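import Pool.Agent.TH634.Cusp.Defs

set_option autoImplicit false

namespace Pool.Agent.TH634.Cusp

open Equiv Finset

/-- the four gluing maps of the two tetrahedra of the figure-eight knot complement -/
def G : Fin 4 → Perm (Fin 4) := ![
  ⟨![0, 1, 3, 2], ![0, 1, 3, 2], by decide, by decide⟩,
  ⟨![3, 2, 0, 1], ![2, 3, 1, 0], by decide, by decide⟩,
  ⟨![3, 0, 1, 2], ![1, 2, 3, 0], by decide, by decide⟩,
  ⟨![2, 1, 0, 3], ![2, 1, 0, 3], by decide, by decide⟩]

/-- the permutations of the six sheets -/
def S : Fin 4 → Perm (Fin 6) := ![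
  ⟨![0, 1, 2, 3, 4, 5], ![0, 1, 2, 3, 4, 5], by decide, by decide⟩,
  ⟨![0, 2, 4, 5, 3, 1], ![0, 5, 1, 4, 2, 3], by decide, by decide⟩,
  ⟨![3, 0, 1, 4, 5, 2], ![1, 2, 5, 0, 3, 4], by decide, by decide⟩,
  ⟨![5, 4, 0, 1, 2, 3], ![2, 3, 4, 5, 1, 0], by decide, by decide⟩]

/-- the face of the first tetrahedron glued to the face `f` of the second one -/
def back : Fin 4 → Fin 4 := ![0, 2, 1, 3]

def nb (t : Fin 2 × Fin 6) (f : Fin 4) : Fin 2 × Fin 6 :=
  if t.1 = 0 then (1, S f t.2) else (0, (S (back f)).symm t.2)

def gl (t : Fin 2 × Fin 6) (f : Fin 4) : Perm (Fin 4) :=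
  if t.1 = 0 then G f else (G (back f))⁻¹

/-- An ideal triangulation with 12 tetrahedra of a 6-sheeted covering of the complement of the
figure-eight knot. -/
def T12 : IdealTri (Fin 2 × Fin 6) where
  nbr := nb
  glue := gl
  nbr_nbr := by decide +kernel
  glue_glue := by decide +kernel
  face_ne := by decide +kernel
  odd := by decide +kernel

theorem rot6 : ∀ x : Flag (Fin 2 × Fin 6), T12.rot^[6] x = x := by decide +kernel

theorem rot2 : ∀ x : Flag (Fin 2 × Fin 6), T12.rot^[2] x ≠ x := by decide +kernel

theorem rot3 : ∀ x : Flag (Fin 2 × Fin 6), T12.rot^[3] x ≠ x := by decide +kernel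


/-- the first flag -/
def x0 : Flag (Fin 2 × Fin 6) := ((0, 0), 1)

/-- the class `2 m + l` -/
def w1 : List Bool := [true, false, false, true, false, true, true, true, true, false]

/-- the class `-4 m + l` -/
def w2 : List Bool := [false, true, false, true, false, true, false, true, true, true, true, true]

def rev (x : Flag (Fin 2 × Fin 6)) : Flag (Fin 2 × Fin 6) := (x.1, x.2 * swap 0 1 * swap 2 3)

theorem norev : ∀ x : Flag (Fin 2 × Fin 6), ∀ k : Fin 6, T12.rot^[k.val] x ≠ rev x := by
  decide +kernel

def wordList : List (List Bool) :=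
  [[], [false, true, false, true, true, false], [true, false, false, false], [true, true, true,
  true, true, false], [true, false, false, false, true, false], [false, false, false, true,
  false, false], [false, false, false, true, true, true, true, false], [false, false, true,
  false, true, false], [false, true, true, true, true, false], [true, true, true, false], [true,
  false, false, true, true, false], [false, false, true, false], [false, true, true, false],
  [false, false, false, true, true, false], [true, false], [false, false, false, false, true,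
  true, true, false], [false, false], [true, false, true, false], [false, true, false, true,
  false, false], [false, false, false, false, true, false], [false, true, true, true, true, true,
  true, false], [false, false, false, false, true, false, true, false], [false, true, false,
  false], [false, false, false, false], [true, false, false, true, false], [true, true, true,
  true, false], [false, false, true, false, true, true, false], [true, false, false, false,
  false], [true, true, false], [false, false, false, true, false], [false, false, true, false,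
  false], [false, true, true, true, true, true, false], [false, true, false, true, false, true,
  false], [true, false, true, false, false], [false, false, false], [true, false, false, false,
  true, false, false], [false, true, false, true, false], [false, false, false, false, true,
  false, false], [true, true, true, true, true, true, false], [false], [false, false, false,
  true, true, true, false], [false, false, true, true, false], [false, false, false, false, true,
  true, false], [false, true, true, true, false], [true, false, false], [false, true, false,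
  true, true, true, false], [false, false, false, false, false], [false, true, false]]

theorem reach : ∀ (t : Fin 2 × Fin 6) (v : Fin 4), ∃ w ∈ wordList,
    (T12.run x0 w).1 = t ∧ (T12.run x0 w).2 0 = v := by decide +kernel

theorem run1 : T12.run x0 w1 = x0 := by decide +kernel

theorem run2 : T12.run x0 w2 = x0 := by decide +kernel

def cC (t : Fin 2 × Fin 6) (v f : Fin 4) : ℤ :=
  match t.1.val, t.2.val, v.val, f.val with
  | 0, 1, 1, 0 => 1
  | 0, 1, 2, 1 => 1
  | 0, 1, 3, 0 => 1
  | 0, 2, 0, 1 => 1
  | 0, 2, 3, 1 => -1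
  | 0, 3, 1, 2 => -1
  | 1, 1, 1, 0 => -1
  | 1, 1, 2, 0 => -1
  | 1, 2, 0, 2 => -1
  | 1, 4, 0, 1 => 1
  | 1, 4, 1, 2 => 1
  | 1, 4, 3, 2 => -1
  | _, _, _, _ => 0

def cD (t : Fin 2 × Fin 6) (v f : Fin 4) : ℤ :=
  match t.1.val, t.2.val, v.val, f.val with
  | 0, 0, 1, 0 => -1
  | 0, 0, 1, 2 => -1
  | 0, 0, 3, 0 => -1
  | 0, 0, 3, 1 => -1
  | 0, 2, 0, 1 => -1
  | 0, 2, 0, 3 => -1
  | 0, 4, 2, 3 => 1
  | 1, 0, 1, 0 => 1
  | 1, 0, 1, 2 => 1
  | 1, 0, 2, 0 => 1
  | 1, 0, 2, 3 => 1
  | 1, 2, 0, 3 => -1
  | 1, 3, 0, 1 => 1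
  | 1, 4, 3, 2 => 1
  | _, _, _, _ => 0

theorem antiC : ∀ (t : Fin 2 × Fin 6) (v f : Fin 4), v ≠ f →
    cC (T12.nbr t f) (T12.glue t f v) (T12.glue t f f) = -cC t v f := by decide +kernel

theorem antiD : ∀ (t : Fin 2 × Fin 6) (v f : Fin 4), v ≠ f →
    cD (T12.nbr t f) (T12.glue t f v) (T12.glue t f f) = -cD t v f := by decide +kernel

theorem vertC : ∀ x : Flag (Fin 2 × Fin 6), ∑ k ∈ range 6,
    cC (T12.rot^[k] x).1 ((T12.rot^[k] x).2 0) ((T12.rot^[k] x).2 2) = 0 := by decide +kernel

theorem vertD : ∀ x : Flag (Fin 2 × Fin 6), ∑ k ∈ range 6,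
    cD (T12.rot^[k] x).1 ((T12.rot^[k] x).2 0) ((T12.rot^[k] x).2 2) = 0 := by decide +kernel

theorem alC1 : T12.along cC x0 w1 = 1 := by decide +kernel
theorem alC2 : T12.along cC x0 w2 = 0 := by decide +kernel
theorem alD1 : T12.along cD x0 w1 = 0 := by decide +kernel
theorem alD2 : T12.along cD x0 w2 = 1 := by decide +kernel

/-- the type of the tetrahedron and of the edge -/
def kd (x : Flag (Fin 2 × Fin 6)) : Fin 2 × Fin 3 :=
  (x.1.1, if ({x.2 0, x.2 1} : Finset (Fin 4)) = {0, 1} ∨ ({x.2 0, x.2 1} : Finset (Fin 4)) = {2, 3}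
    then 0 else if ({x.2 0, x.2 1} : Finset (Fin 4)) = {0, 2} ∨
      ({x.2 0, x.2 1} : Finset (Fin 4)) = {1, 3} then 1 else 2)

theorem kinds : ∀ x : Flag (Fin 2 × Fin 6),
    (Multiset.range 6).map (fun k => kd (T12.rot^[k] x)) =
      {(0, 0), (0, 1), (0, 1), (1, 1), (1, 2), (1, 2)} ∨
    (Multiset.range 6).map (fun k => kd (T12.rot^[k] x)) =
      {(0, 0), (0, 2), (0, 2), (1, 0), (1, 0), (1, 1)} := by decide +kernel

def pathList : Flag (Fin 2 × Fin 6) → List Bool → List (ℤ × (Fin 2 × Fin 3))
  | _, [] => []
  | x, b :: w => ((Perm.sign x.2 : ℤ), kd x) :: pathList (T12.step b x) w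

theorem path1 : pathList x0 w1 = [(1, 0, 0), (-1, 1, 0), (-1, 0, 0), (-1, 1, 0), (1, 0, 1),
    (1, 1, 2), (-1, 0, 1), (1, 1, 1), (-1, 0, 0), (1, 1, 2)] := by decide +kernel

theorem path2 : pathList x0 w2 = [(1, 0, 0), (1, 1, 2), (-1, 0, 2), (-1, 1, 0), (1, 0, 2),
    (1, 1, 0), (-1, 0, 1), (-1, 1, 1), (1, 0, 0), (-1, 1, 0), (1, 0, 2), (-1, 1, 1)] := by
  decide +kernel

end Pool.Agent.TH634.Cusp
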