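import Mathlib

/-!
# Ideal triangulations, Thurston's gluing equations and Dehn filling

Definitions: oriented ideal triangulations of cusped 3-manifolds, shape parameters, the gluing
equations, closed curves on the boundary torus (cusp torus) and their logarithmic holonomy, the
Dehn filling equation and the volume.
-/

set_option autoImplicit false

namespace Pool.Agent.TH634.Cusp

open Equiv Finset

/-- An oriented ideal triangulation without boundary: a set `ι` of oriented ideal tetrahedra, each
with vertices `0, 1, 2, 3`, with all faces glued in pairs by orientation reversing simplicial maps.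
The face number `f` is the one opposite to the vertex `f`. The face `f` of the tetrahedron `t` is
glued to a face of `nbr t f`; the vertex `v ≠ f` of `t` goes to the vertex `glue t f v` of
`nbr t f`, and `glue t f f` is the number of the other face. -/
structure IdealTri (ι : Type) where
  nbr : ι → Fin 4 → ι
  glue : ι → Fin 4 → Perm (Fin 4)
  nbr_nbr : ∀ t f, nbr (nbr t f) (glue t f f) = t
  glue_glue : ∀ t f, glue (nbr t f) (glue t f f) = (glue t f)⁻¹
  face_ne : ∀ t f, (nbr t f, glue t f f) ≠ (t, f)
  odd : ∀ t f, Perm.sign (glue t f) = -1

/-- A flag `(t, π)`: an ideal tetrahedron `t`, its ideal vertex `π 0`, the edge from `π 0` to `π 1`,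
and the order `π 2, π 3` of the two faces containing this edge (the face `π 2` is the one opposite
to the vertex `π 2`).

The ideal vertex `π 0` of `t` is cut off by a triangle of the cusp torus (the link of the ideal
point). This triangle has the corner `π 1` on the edge from `π 0` to `π 1`, and two of
its sides, in the faces `π 2` and `π 3` of `t`, meet at this corner. So `(t, π)` is also a short
piece of a path on the cusp torus: it enters the triangle through its side in the
face `π 3`, goes around the corner `π 1` and leaves through the side in the face `π 2`. -/
abbrev Flag (ι : Type) : Type := ι × Perm (Fin 4)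

/-- The shape parameter at the edge `{i, j}` of an ideal tetrahedron with the shape parameter `z` at
the edges `{0, 1}` and `{2, 3}`: `z`, `1 / (1 - z)` and `1 - 1 / z` in this order at
the edges `{0, 1}`, `{0, 2}` and `{0, 3}` and the edges opposite to them. -/
noncomputable def edgeParam (z : ℂ) (i j : Fin 4) : ℂ :=
  if ({i, j} : Finset (Fin 4)) = {0, 1} ∨ ({i, j} : Finset (Fin 4)) = {2, 3} then z
  else if ({i, j} : Finset (Fin 4)) = {0, 2} ∨ ({i, j} : Finset (Fin 4)) = {1, 3} then 1 / (1 - z)
  else 1 - 1 / z

/-- The Lobachevsky function `Λ(x) = -∫_0^x log |2 sin t| dt`. -/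
noncomputable def lob (x : ℝ) : ℝ := -∫ t in (0 : ℝ)..x, Real.log |2 * Real.sin t|

/-- The hyperbolic volume of the ideal tetrahedron with shape parameter `z`, `Im z > 0`: the sum of
the values of the Lobachevsky function at its dihedral angles. -/
noncomputable def tetVol (z : ℂ) : ℝ :=
  lob (Complex.arg z) + lob (Complex.arg (1 / (1 - z))) + lob (Complex.arg (1 - 1 / z))

namespace IdealTri

variable {ι : Type} (T : IdealTri ι)

/-- One step of a path on the cusp torus. The path leaves the triangle of `x = (t, π)` through its
side in the face `π 2` and enters the next triangle. There it either goes on around the same vertex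
of the triangulation of the cusp torus (`b = false`), or around the other end
of the side just crossed (`b = true`). -/
def step (b : Bool) (x : Flag ι) : Flag ι :=
  (T.nbr x.1 (x.2 2), T.glue x.1 (x.2 2) * x.2 * swap 2 3 * (if b then swap 1 2 else 1))

/-- The path on the cusp torus which begins with the piece `x` and goes on as the word says. -/
def run : Flag ι → List Bool → Flag ι
  | x, [] => x
  | x, b :: w => run (T.step b x) w

/-- The rotation around the edge of a flag: across the face `π 2` to the next tetrahedron. -/
def rot (x : Flag ι) : Flag ι := T.step false x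

/-- The shape parameter of the tetrahedron of the flag `(t, π)` at the edge `{π 0, π 1}`. -/
noncomputable def param (z : ι → ℂ) (x : Flag ι) : ℂ := edgeParam (z x.1) (x.2 0) (x.2 1)

/-- Thurston's gluing equations: around each edge the shape parameters have
product `1` and the dihedral angles have sum `2 π`, that is, the sum of the logarithms is `2 π i`.
(The orbit of a flag under `rot` goes once around its edge.) -/
def EdgeEquations (z : ι → ℂ) : Prop :=
  ∀ x : Flag ι, ∑ k ∈ range (Function.minimalPeriod T.rot x), Complex.log (param z (T.rot^[k] x)) =
    2 * Real.pi * Complex.I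

/-- The logarithm of the derivative of the holonomy along a path on the cusp torus: the sum of the
logarithms of the shape parameters at the corners on the left of the path, minus the sum for the
corners on its right. -/
noncomputable def logHol (z : ι → ℂ) : Flag ι → List Bool → ℂ
  | _, [] => 0
  | x, b :: w => ((Perm.sign x.2 : ℤ) : ℂ) * Complex.log (param z x) + logHol z (T.step b x) w

/-- A simplicial 1-cocycle on the cusp torus with respect to the cell structure dual to its
triangulation: `c t v f` is the value on the crossing of the side in the face `f` of the triangle at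
the ideal vertex `v` of `t`, from this triangle to the neighbouring one. -/
structure IsCocycle (c : ι → Fin 4 → Fin 4 → ℤ) : Prop where
  anti : ∀ t v f, v ≠ f → c (T.nbr t f) (T.glue t f v) (T.glue t f f) = -c t v f
  vertex : ∀ x : Flag ι, ∑ k ∈ range (Function.minimalPeriod T.rot x),
    c (T.rot^[k] x).1 ((T.rot^[k] x).2 0) ((T.rot^[k] x).2 2) = 0

/-- The value of a cocycle on a path. -/
def along (c : ι → Fin 4 → Fin 4 → ℤ) : Flag ι → List Bool → ℤ
  | _, [] => 0
  | x, b :: w => c x.1 (x.2 0) (x.2 2) + along c (T.step b x) w

/-- The closed paths `μ` and `l` starting at `x₀` are dual to two integral cocycles of the cusp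
torus. As the first homology group of a torus is free of rank two, this says that the classes of
`μ` and `l` are a basis of it: every integral class is `p μ + q l` with
unique integers `p, q`. -/
def IsBasis (x₀ : Flag ι) (μ l : List Bool) : Prop :=
  T.run x₀ μ = x₀ ∧ T.run x₀ l = x₀ ∧
    ∃ c d : ι → Fin 4 → Fin 4 → ℤ, T.IsCocycle c ∧ T.IsCocycle d ∧
      T.along c x₀ μ = 1 ∧ T.along c x₀ l = 0 ∧ T.along d x₀ μ = 0 ∧ T.along d x₀ l = 1

/-- `T` is an ideal triangulation of an orientable hyperbolic 3-manifold of finite volume with
exactly one cusp, and `(μ, l)` is a basis of the first homology of the cusp torus: no edge is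
identified with itself in the reverse direction, all the ideal vertices are identified to one ideal
point, and there are shape parameters `z` with positive imaginary parts (the complete structure)
which solve the gluing equations and for which the holonomies of `μ` and `l` are
translations. -/
def IsOneCusped (x₀ : Flag ι) (μ l : List Bool) : Prop :=
  (∀ (x : Flag ι) (k : ℕ), T.rot^[k] x ≠ (x.1, x.2 * swap 0 1 * swap 2 3)) ∧
  (∀ (t : ι) (v : Fin 4), ∃ w : List Bool, (T.run x₀ w).1 = t ∧ (T.run x₀ w).2 0 = v) ∧
  T.IsBasis x₀ μ l ∧
  ∃ z : ι → ℂ, (∀ t, 0 < (z t).im) ∧ T.EdgeEquations z ∧ T.logHol z x₀ μ = 0 ∧ T.logHol z x₀ l = 0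

/-- The closed manifold obtained from the manifold of `T` by Dehn filling along the slope
`p μ + q l` is hyperbolic with volume `V`, by means of the ideal triangulation: there are shape
parameters `z` with positive imaginary parts which solve the gluing
equations and the Dehn filling equation `p log H'(μ) + q log H'(l) = 2 π i`, and `V` is the sum of
the volumes of the ideal tetrahedra. -/
def FillingHasVolume [Fintype ι] (x₀ : Flag ι) (μ l : List Bool) (p q : ℤ) (V : ℝ) : Prop :=
  ∃ z : ι → ℂ, (∀ t, 0 < (z t).im) ∧ T.EdgeEquations z ∧
    (p : ℂ) * T.logHol z x₀ μ + (q : ℂ) * T.logHol z x₀ l = 2 * Real.pi * Complex.I ∧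
    V = ∑ t, tetVol (z t)

end IdealTri

end Pool.Agent.TH634.Cusp
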