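import Mathlib

set_option autoImplicit false

namespace Pool.Agent.TH634.Cusp

open Complex Filter Topology

/-- the shape parameter of the regular ideal tetrahedron -/
noncomputable def om : ℂ := ⟨1 / 2, Real.sqrt 3 / 2⟩

theorem om_im : 0 < om.im := by
  show 0 < Real.sqrt 3 / 2
  positivity

theorem om_sq : om * om = om - 1 := by
  have h3 : Real.sqrt 3 * Real.sqrt 3 = 3 := Real.mul_self_sqrt (by norm_num)
  apply Complex.ext
  · show (1 / 2 : ℝ) * (1 / 2) - Real.sqrt 3 / 2 * (Real.sqrt 3 / 2) = 1 / 2 - 1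
    nlinarith
  · show (1 / 2 : ℝ) * (Real.sqrt 3 / 2) + Real.sqrt 3 / 2 * (1 / 2) = Real.sqrt 3 / 2 - 0
    ring

theorem om_ne : om ≠ 0 := by
  intro h
  have := om_im
  rw [h] at this
  simp at this

theorem one_sub_om : 1 / (1 - om) = om := by
  have h : om * (1 - om) = 1 := by linear_combination -om_sq
  have h1 : (1 - om) ≠ 0 := by
    intro h0
    rw [h0, mul_zero] at h
    exact zero_ne_one h
  field_simp
  linear_combination -h

theorem one_sub_inv_om : 1 - 1 / om = om := by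
  have := om_ne
  field_simp
  linear_combination -om_sq

theorem log_om : Complex.log om = Real.pi / 3 * I := by
  have h : om = Complex.exp (Real.pi / 3 * I) := by
    have h0 : ((Real.pi : ℂ) / 3) = ((Real.pi / 3 : ℝ) : ℂ) := by push_cast; ring
    rw [h0, Complex.exp_mul_I, ← Complex.ofReal_cos, ← Complex.ofReal_sin, Real.cos_pi_div_three,
      Real.sin_pi_div_three]
    apply Complex.ext <;> simp [om]
  rw [h, Complex.log_exp]
  · simp; linarith [Real.pi_pos]
  · simp; linarith [Real.pi_pos]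

theorem im1 (z : ℂ) (hz : 0 < z.im) : 0 < (1 / (1 - z)).im := by
  have h1 : (1 - z) ≠ 0 := by
    intro h
    have : (1 - z).im = 0 := by rw [h]; rfl
    simp at this
    linarith
  rw [one_div, Complex.inv_im]
  have h2 : 0 < Complex.normSq (1 - z) := Complex.normSq_pos.2 h1
  have h3 : -(1 - z).im = z.im := by simp
  rw [h3]
  positivity

theorem im2 (z : ℂ) (hz : 0 < z.im) : 0 < (1 - 1 / z).im := by
  have h1 : z ≠ 0 := by
    intro h
    rw [h] at hz
    simp at hz
  rw [one_div, Complex.sub_im, Complex.inv_im]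
  have h2 : 0 < Complex.normSq z := Complex.normSq_pos.2 h1
  have h3 : (1 : ℂ).im - -z.im / Complex.normSq z = z.im / Complex.normSq z := by
    simp [neg_div]
  rw [h3]
  positivity

theorem ne0 (z : ℂ) (hz : 0 < z.im) : z ≠ 0 := by
  intro h
  rw [h] at hz
  simp at hz

theorem arg_bounds (z : ℂ) (hz : 0 < z.im) : 0 < (Complex.log z).im ∧ (Complex.log z).im < Real.pi := by
  rw [Complex.log_im]
  refine ⟨?_, ?_⟩
  · rcases lt_or_eq_of_le (Complex.arg_nonneg_iff.2 hz.le) with h | h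
    · exact h
    · exfalso
      have := (Complex.arg_eq_zero_iff.1 h.symm).2
      linarith
  · rcases lt_or_eq_of_le (Complex.arg_le_pi z) with h | h
    · exact h
    · exfalso
      have := (Complex.arg_eq_pi_iff.1 h).2
      linarith

/-- for `Im z > 0` the three logarithms have sum `π i` -/
theorem log_sum (z : ℂ) (hz : 0 < z.im) :
    Complex.log z + Complex.log (1 / (1 - z)) + Complex.log (1 - 1 / z) = Real.pi * I := by
  have n0 := ne0 z hz
  have n1 : (1 - z) ≠ 0 := by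
    intro h
    have : (1 - z).im = 0 := by rw [h]; rfl
    simp at this
    linarith
  have he : Complex.exp (Complex.log z + Complex.log (1 / (1 - z)) + Complex.log (1 - 1 / z)) =
      Complex.exp (Real.pi * I) := by
    rw [Complex.exp_add, Complex.exp_add, Complex.exp_log n0, Complex.exp_log (ne0 _ (im1 z hz)),
      Complex.exp_log (ne0 _ (im2 z hz)), Complex.exp_pi_mul_I]
    field_simp
    ring
  obtain ⟨k, hk⟩ := Complex.exp_eq_exp_iff_exists_int.1 he
  have b0 := arg_bounds z hz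
  have b1 := arg_bounds _ (im1 z hz)
  have b2 := arg_bounds _ (im2 z hz)
  have him := congrArg Complex.im hk
  simp only [Complex.add_im] at him
  have e1 : ((Real.pi : ℂ) * I).im = Real.pi := by simp
  have e2 : ((k : ℂ) * (2 * Real.pi * I)).im = k * (2 * Real.pi) := by simp
  rw [e1, e2] at him
  have hpi := Real.pi_pos
  have k1 : (k : ℝ) < 1 := by
    by_contra h
    push Not at h
    nlinarith
  have k2 : (-1 : ℝ) < k := by
    by_contra h
    push Not at h
    nlinarith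
  have k3 : k < 1 := by exact_mod_cast k1
  have k4 : -1 < k := by exact_mod_cast k2
  have k5 : k = 0 := by omega
  rw [hk, k5]
  simp

theorem om_slit : om ∈ Complex.slitPlane := Or.inr om_im.ne'

theorem d0 : HasStrictDerivAt (fun z : ℂ => Complex.log z) (1 - om) om := by
  have h := Complex.hasStrictDerivAt_log om_slit
  have h1 : om⁻¹ = 1 - om := by
    have := om_ne
    field_simp
    linear_combination om_sq
  rw [h1] at h
  exact h

theorem d1 : HasStrictDerivAt (fun z : ℂ => Complex.log (1 / (1 - z))) om om := by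
  have n1 : (1 - om) ≠ 0 := by
    intro h
    have := one_sub_om
    rw [h] at this
    simp at this
    exact om_ne this.symm
  have h0 : HasStrictDerivAt (fun z : ℂ => 1 - z) (-1) om := by
    simpa using (hasStrictDerivAt_id om).const_sub 1
  have h1 := (hasStrictDerivAt_inv n1).comp om h0
  have h2 : HasStrictDerivAt (fun z : ℂ => 1 / (1 - z)) (om * om) om := by
    have e : (fun z : ℂ => 1 / (1 - z)) = fun z : ℂ => (1 - z)⁻¹ := by
      funext z; rw [one_div]
    rw [e]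
    have e2 : -((1 - om) ^ 2)⁻¹ * (-1 : ℂ) = om * om := by
      have h := one_sub_om
      rw [one_div] at h
      rw [← inv_pow, h]
      ring
    rw [← e2]
    exact h1
  have hs : 1 / (1 - om) ∈ Complex.slitPlane := by rw [one_sub_om]; exact om_slit
  have h3 := h2.clog hs
  have e3 : om * om / (1 / (1 - om)) = om := by
    rw [one_sub_om]
    have := om_ne
    field_simp
  rw [e3] at h3
  exact h3

theorem d2 : HasStrictDerivAt (fun z : ℂ => Complex.log (1 - 1 / z)) (-1) om := by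
  have n0 := om_ne
  have h1 : HasStrictDerivAt (fun z : ℂ => 1 - 1 / z) (1 / om ^ 2) om := by
    have e : (fun z : ℂ => 1 - 1 / z) = fun z : ℂ => 1 - z⁻¹ := by
      funext z; rw [one_div]
    rw [e]
    have h := (hasStrictDerivAt_inv n0).const_sub 1
    have e2 : -(-(om ^ 2)⁻¹) = 1 / om ^ 2 := by rw [neg_neg, one_div]
    rw [e2] at h
    exact h
  have hs : 1 - 1 / om ∈ Complex.slitPlane := by rw [one_sub_inv_om]; exact om_slit
  have h3 := h1.clog hs
  have e3 : 1 / om ^ 2 / (1 - 1 / om) = -1 := by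
    rw [one_sub_inv_om]
    have h4 : om ^ 3 = -1 := by linear_combination (om + 1) * om_sq
    have h5 : om ^ 2 * om = -1 := by linear_combination h4
    rw [div_div, h5]
    norm_num
  rw [e3] at h3
  exact h3

/-- the equations -/
noncomputable def GG (p : ℂ × ℂ × ℂ) : ℂ × ℂ × ℂ :=
  (Complex.log p.1 + 2 * Complex.log (1 / (1 - p.1)) + Complex.log (1 / (1 - p.2.1)) +
      2 * Complex.log (1 - 1 / p.2.1) - 2 * Real.pi * I,
    (Complex.log (1 / (1 - p.1)) - Complex.log p.2.1) +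
      p.2.2 * (2 * (Complex.log (1 - 1 / p.1) - Complex.log (1 / (1 - p.1))) - Real.pi / 3 * I),
    p.2.2)

theorem GG_zero : GG (om, om, 0) = (0, 0, 0) := by
  unfold GG
  simp only [one_sub_om, one_sub_inv_om, log_om]
  refine Prod.ext ?_ (Prod.ext ?_ rfl)
  · show _ = (0 : ℂ)
    ring
  · show _ = (0 : ℂ)
    ring

/-- the derivative -/
noncomputable def Ld : ℂ × ℂ × ℂ →L[ℂ] ℂ × ℂ × ℂ :=
  let a : ℂ × ℂ × ℂ →L[ℂ] ℂ := ContinuousLinearMap.fst ℂ ℂ (ℂ × ℂ)
  let b : ℂ × ℂ × ℂ →L[ℂ] ℂ := (ContinuousLinearMap.fst ℂ ℂ ℂ).comp (ContinuousLinearMap.snd ℂ ℂ (ℂ × ℂ))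
  let c : ℂ × ℂ × ℂ →L[ℂ] ℂ := (ContinuousLinearMap.snd ℂ ℂ ℂ).comp (ContinuousLinearMap.snd ℂ ℂ (ℂ × ℂ))
  ((1 + om) • a + (om - 2) • b).prod ((om • a - (1 - om) • b - (Real.pi / 3 * I : ℂ) • c).prod c)

theorem Ld_surj : Ld.range = ⊤ := by
  rw [LinearMap.range_eq_top]
  rintro ⟨α, β, γ⟩
  have hD : (-1 + 2 * om) ≠ 0 := by
    intro h
    have := congrArg Complex.im h
    simp at this
    linarith [om_im]
  obtain ⟨κ, hκ⟩ : ∃ κ : ℂ, κ * (-1 + 2 * om) = 1 := ⟨(-1 + 2 * om)⁻¹, inv_mul_cancel₀ hD⟩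
  refine ⟨(κ * (-(1 - om) * α - (om - 2) * (β + Real.pi / 3 * I * γ)),
    κ * ((1 + om) * (β + Real.pi / 3 * I * γ) - om * α), γ), ?_⟩
  show Ld _ = _
  refine Prod.ext ?_ (Prod.ext ?_ rfl)
  · show (1 + om) * (κ * (-(1 - om) * α - (om - 2) * (β + Real.pi / 3 * I * γ))) +
      (om - 2) * (κ * ((1 + om) * (β + Real.pi / 3 * I * γ) - om * α)) = α
    linear_combination α * hκ
  · show om * (κ * (-(1 - om) * α - (om - 2) * (β + Real.pi / 3 * I * γ))) -
      (1 - om) * (κ * ((1 + om) * (β + Real.pi / 3 * I * γ) - om * α)) - (Real.pi / 3 * I) * γ = β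
    linear_combination (β + Real.pi / 3 * I * γ) * hκ

theorem GG_deriv : HasStrictFDerivAt GG Ld (om, om, 0) := by
  have hfst : HasStrictFDerivAt (fun p : ℂ × ℂ × ℂ => p.1) (ContinuousLinearMap.fst ℂ ℂ (ℂ × ℂ))
    (om, om, 0) := (ContinuousLinearMap.fst ℂ ℂ (ℂ × ℂ)).hasStrictFDerivAt
  have hsnd : HasStrictFDerivAt (fun p : ℂ × ℂ × ℂ => p.2.1)
    ((ContinuousLinearMap.fst ℂ ℂ ℂ).comp (ContinuousLinearMap.snd ℂ ℂ (ℂ × ℂ))) (om, om, 0) :=
    ((ContinuousLinearMap.fst ℂ ℂ ℂ).comp (ContinuousLinearMap.snd ℂ ℂ (ℂ × ℂ))).hasStrictFDerivAt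
  have hthd : HasStrictFDerivAt (fun p : ℂ × ℂ × ℂ => p.2.2)
    ((ContinuousLinearMap.snd ℂ ℂ ℂ).comp (ContinuousLinearMap.snd ℂ ℂ (ℂ × ℂ))) (om, om, 0) :=
    ((ContinuousLinearMap.snd ℂ ℂ ℂ).comp (ContinuousLinearMap.snd ℂ ℂ (ℂ × ℂ))).hasStrictFDerivAt
  have a0 := d0.comp_hasStrictFDerivAt (om, om, (0 : ℂ)) hfst
  have a1 := d1.comp_hasStrictFDerivAt (om, om, (0 : ℂ)) hfst
  have a2 := d2.comp_hasStrictFDerivAt (om, om, (0 : ℂ)) hfst
  have b0 := d0.comp_hasStrictFDerivAt (om, om, (0 : ℂ)) hsnd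
  have b1 := d1.comp_hasStrictFDerivAt (om, om, (0 : ℂ)) hsnd
  have b2 := d2.comp_hasStrictFDerivAt (om, om, (0 : ℂ)) hsnd
  have F1 := (((a0.add (a1.const_mul 2)).add b1).add (b2.const_mul 2)).sub_const (2 * Real.pi * I)
  have F2 := (a1.sub b0).add (hthd.mul (((a2.sub a1).const_mul 2).sub_const (Real.pi / 3 * I)))
  have F := F1.prodMk (F2.prodMk hthd)
  have F' : HasStrictFDerivAt GG _ (om, om, (0 : ℂ)) := F
  refine F'.congr_fderiv ?_
  apply ContinuousLinearMap.ext
  rintro ⟨x, y, w⟩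
  refine Prod.ext ?_ (Prod.ext ?_ rfl)
  · show (((1 - om) * x + 2 * (om * x)) + om * y) + 2 * (-1 * y) = (1 + om) * x + (om - 2) * y
    ring
  · show (om * x - (1 - om) * y) +
      ((0 : ℂ) * (2 * (-1 * x - om * x)) + (2 * (Complex.log (1 - 1 / om) -
        Complex.log (1 / (1 - om))) - Real.pi / 3 * I) * w) = om * x - (1 - om) * y - Real.pi / 3 * I * w
    rw [one_sub_om, one_sub_inv_om]
    ring

/-- existence of the solutions -/
theorem solve : ∃ N : ℕ, ∀ n : ℕ, N ≤ n → ∃ z w : ℂ, 0 < z.im ∧ 0 < w.im ∧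
    Complex.log z + 2 * Complex.log (1 / (1 - z)) + Complex.log (1 / (1 - w)) +
      2 * Complex.log (1 - 1 / w) = 2 * Real.pi * I ∧
    (6 * (n : ℂ) + 3) * (Complex.log (1 / (1 - z)) - Complex.log w) +
      2 * (Complex.log (1 - 1 / z) - Complex.log (1 / (1 - z))) = Real.pi / 3 * I := by
  have hU : {p : ℂ × ℂ × ℂ | 0 < p.1.im ∧ 0 < p.2.1.im} ∈ 𝓝 (om, om, (0 : ℂ)) := by
    apply IsOpen.mem_nhds
    · exact (isOpen_lt continuous_const (Complex.continuous_im.comp continuous_fst)).inter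
        (isOpen_lt continuous_const (Complex.continuous_im.comp (continuous_fst.comp continuous_snd)))
    · exact ⟨om_im, om_im⟩
  have hmap := GG_deriv.map_nhds_eq_of_surj Ld_surj
  have himg : GG '' {p : ℂ × ℂ × ℂ | 0 < p.1.im ∧ 0 < p.2.1.im} ∈ 𝓝 ((0, 0, 0) : ℂ × ℂ × ℂ) := by
    rw [← GG_zero, ← hmap]
    exact image_mem_map hU
  have hlim : Tendsto (fun n : ℕ => ((0 : ℂ), (0 : ℂ), (1 : ℂ) / (6 * (n : ℂ) + 3))) atTop
      (𝓝 ((0, 0, 0) : ℂ × ℂ × ℂ)) := by
    refine tendsto_const_nhds.prodMk_nhds (tendsto_const_nhds.prodMk_nhds ?_)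
    have h1 : Tendsto (fun n : ℕ => (1 : ℝ) / (6 * (n : ℝ) + 3)) atTop (𝓝 0) := by
      refine tendsto_const_nhds.div_atTop ?_
      exact tendsto_atTop_add_const_right _ _ (tendsto_natCast_atTop_atTop.const_mul_atTop (by norm_num))
    have h2 := (Complex.continuous_ofReal.tendsto 0).comp h1
    refine (h2.congr ?_).trans (by simp)
    intro n
    simp
  obtain ⟨N, hN⟩ := eventually_atTop.1 (hlim.eventually himg)
  refine ⟨N, fun n hn => ?_⟩
  obtain ⟨⟨z, w, e⟩, ⟨hz, hw⟩, hG⟩ := hN n hn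
  have hn0 : (6 * (n : ℂ) + 3) ≠ 0 := by
    have : (6 * (n : ℝ) + 3) ≠ 0 := by positivity
    exact_mod_cast this
  unfold GG at hG
  simp only [Prod.mk.injEq] at hG
  obtain ⟨g1, g2, g3⟩ := hG
  refine ⟨z, w, hz, hw, sub_eq_zero.1 g1, ?_⟩
  rw [g3] at g2
  have g4 : (6 * (n : ℂ) + 3) * (1 / (6 * (n : ℂ) + 3)) = 1 := by
    rw [one_div, mul_inv_cancel₀ hn0]
  linear_combination (6 * (n : ℂ) + 3) * g2 - (2 * (Complex.log (1 - 1 / z) -
    Complex.log (1 / (1 - z))) - Real.pi / 3 * I) * g4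

end Pool.Agent.TH634.Cusp
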