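import Pool.Agent.TH634.Cusp.Data
import Pool.Agent.TH634.Cusp.Solve

set_option autoImplicit false

namespace Pool.Agent.TH634.Cusp

open Equiv Finset

theorem minP (x : Flag (Fin 2 × Fin 6)) : Function.minimalPeriod T12.rot x = 6 := by
  have h6 : Function.IsPeriodicPt T12.rot 6 x := rot6 x
  have hd := h6.minimalPeriod_dvd
  have h2 : ¬ Function.minimalPeriod T12.rot x ∣ 2 := by
    intro h
    have h1 : Function.IsPeriodicPt T12.rot 2 x := by
      rw [← Function.isPeriodicPt_iff_minimalPeriod_dvd] at h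
      exact h
    exact rot2 x h1
  have h3 : ¬ Function.minimalPeriod T12.rot x ∣ 3 := by
    intro h
    have h1 : Function.IsPeriodicPt T12.rot 3 x := by
      rw [← Function.isPeriodicPt_iff_minimalPeriod_dvd] at h
      exact h
    exact rot3 x h1
  have hle := Nat.le_of_dvd (by norm_num) hd
  interval_cases h : Function.minimalPeriod T12.rot x <;> first | rfl | omega

theorem nofold (x : Flag (Fin 2 × Fin 6)) (k : ℕ) :
    T12.rot^[k] x ≠ (x.1, x.2 * swap 0 1 * swap 2 3) := by
  have h6 : Function.IsPeriodicPt T12.rot 6 x := rot6 x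
  rw [← h6.iterate_mod_apply k]
  exact norev x ⟨k % 6, Nat.mod_lt _ (by norm_num)⟩

theorem cocC : T12.IsCocycle cC := ⟨antiC, fun x => by rw [minP]; exact vertC x⟩

theorem cocD : T12.IsCocycle cD := ⟨antiD, fun x => by rw [minP]; exact vertD x⟩

theorem basis12 : T12.IsBasis x0 w1 w2 :=
  ⟨run1, run2, cC, cD, cocC, cocD, alC1, alC2, alD1, alD2⟩

/-- the shape parameters on the covering -/
def pull (a b : ℂ) (t : Fin 2 × Fin 6) : ℂ := if t.1 = 0 then a else b

/-- logarithms of the shape parameters -/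
noncomputable def LL (a b : ℂ) (p : Fin 2 × Fin 3) : ℂ :=
  Complex.log (if p.2 = 0 then (if p.1 = 0 then a else b) else
    if p.2 = 1 then 1 / (1 - (if p.1 = 0 then a else b)) else 1 - 1 / (if p.1 = 0 then a else b))

theorem log_param (a b : ℂ) (x : Flag (Fin 2 × Fin 6)) :
    Complex.log (IdealTri.param (pull a b) x) = LL a b (kd x) := by
  unfold IdealTri.param edgeParam LL kd pull
  simp only
  split_ifs <;> simp_all

theorem edge_eq (a b : ℂ) (ha : 0 < a.im) (hb : 0 < b.im)
    (h : Complex.log a + 2 * Complex.log (1 / (1 - a)) + Complex.log (1 / (1 - b)) +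
      2 * Complex.log (1 - 1 / b) = 2 * Real.pi * Complex.I) : T12.EdgeEquations (pull a b) := by
  intro x
  rw [minP]
  have h1 : ∑ k ∈ range 6, Complex.log (IdealTri.param (pull a b) (T12.rot^[k] x)) =
      (((Multiset.range 6).map (fun k => kd (T12.rot^[k] x))).map (LL a b)).sum := by
    rw [Multiset.map_map]
    show ((Multiset.range 6).map _).sum = _
    congr 1
    apply Multiset.map_congr rfl
    intro k _
    exact log_param a b _
  rw [h1]
  have sa := log_sum a ha
  have sb := log_sum b hb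
  rcases kinds x with h2 | h2
  · rw [h2]
    have : ((({(0, 0), (0, 1), (0, 1), (1, 1), (1, 2), (1, 2)} :
        Multiset (Fin 2 × Fin 3))).map (LL a b)).sum = LL a b (0, 0) + (LL a b (0, 1) + (LL a b (0, 1) +
          (LL a b (1, 1) + (LL a b (1, 2) + LL a b (1, 2))))) := by
      simp
    rw [this]
    simp only [LL]
    simp
    simp only [one_div] at h
    linear_combination h
  · rw [h2]
    have : ((({(0, 0), (0, 2), (0, 2), (1, 0), (1, 0), (1, 1)} :
        Multiset (Fin 2 × Fin 3))).map (LL a b)).sum = LL a b (0, 0) + (LL a b (0, 2) + (LL a b (0, 2) +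
          (LL a b (1, 0) + (LL a b (1, 0) + LL a b (1, 1))))) := by
      simp
    rw [this]
    simp only [LL]
    simp
    simp only [one_div] at h sa sb
    linear_combination 2 * sa + 2 * sb - h

theorem logHol_eq (a b : ℂ) (x : Flag (Fin 2 × Fin 6)) (w : List Bool) :
    T12.logHol (pull a b) x w = ((pathList x w).map (fun e => (e.1 : ℂ) * LL a b e.2)).sum := by
  induction w generalizing x with
  | nil => rfl
  | cons c w ih =>
    show ((Perm.sign x.2 : ℤ) : ℂ) * Complex.log (IdealTri.param (pull a b) x) +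
      T12.logHol (pull a b) (T12.step c x) w = _
    rw [ih, log_param]
    simp [pathList]

theorem hol1 (a b : ℂ) : T12.logHol (pull a b) x0 w1 = -Complex.log a - 2 * Complex.log b +
    Complex.log (1 / (1 - b)) + 2 * Complex.log (1 - 1 / b) := by
  rw [logHol_eq, path1]
  simp [LL]
  ring

theorem hol2 (a b : ℂ) : T12.logHol (pull a b) x0 w2 = 2 * Complex.log a -
    Complex.log (1 / (1 - a)) + Complex.log (1 - 1 / a) - Complex.log b -
    2 * Complex.log (1 / (1 - b)) + Complex.log (1 - 1 / b) := by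
  rw [logHol_eq, path2]
  simp [LL]
  ring

theorem one_cusped : T12.IsOneCusped x0 w1 w2 := by
  have he : Complex.log om + 2 * Complex.log (1 / (1 - om)) + Complex.log (1 / (1 - om)) +
      2 * Complex.log (1 - 1 / om) = 2 * Real.pi * Complex.I := by
    rw [one_sub_om, one_sub_inv_om, log_om]
    ring
  refine ⟨nofold, fun t v => ?_, basis12, pull om om, fun t => ?_, edge_eq om om om_im om_im he, ?_, ?_⟩
  · obtain ⟨w, -, hw⟩ := reach t v
    exact ⟨w, hw⟩
  · unfold pull
    split_ifs <;> exact om_im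
  · rw [hol1, one_sub_om, one_sub_inv_om, log_om]
    ring
  · rw [hol2, one_sub_om, one_sub_inv_om, log_om]
    ring

/-- inversion in the unit circle -/
noncomputable def cj (x : ℂ) : ℂ := 1 / (starRingEnd ℂ) x

theorem cj_im (x : ℂ) (hx : 0 < x.im) : 0 < (cj x).im := by
  unfold cj
  rw [one_div, Complex.inv_im, Complex.conj_im, neg_neg, Complex.normSq_conj]
  have := Complex.normSq_pos.2 (ne0 x hx)
  positivity

theorem cj_arg (x : ℂ) (hx : 0 < x.im) : (cj x).arg = x.arg := by
  have hb := arg_bounds x hx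
  rw [Complex.log_im] at hb
  unfold cj
  rw [one_div, Complex.arg_inv, Complex.arg_conj]
  rw [if_neg (by linarith : ¬ x.arg = Real.pi), if_neg (by linarith [Real.pi_pos] : ¬ -x.arg = Real.pi)]
  ring

theorem cj_log (x : ℂ) (hx : 0 < x.im) : Complex.log (cj x) = -(starRingEnd ℂ) (Complex.log x) := by
  have hb := arg_bounds x hx
  rw [Complex.log_im] at hb
  have h1 : (starRingEnd ℂ x).arg ≠ Real.pi := by
    rw [Complex.arg_conj, if_neg (by linarith : ¬ x.arg = Real.pi)]
    linarith [Real.pi_pos]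
  unfold cj
  rw [one_div, Complex.log_inv _ h1, Complex.log_conj _ (by linarith : x.arg ≠ Real.pi)]

theorem cj1 (x : ℂ) (hx : 0 < x.im) : 1 / (1 - cj x) = cj (1 - 1 / x) := by
  have n0 := ne0 x hx
  have n1 : (starRingEnd ℂ) x ≠ 0 := by simpa using n0
  unfold cj
  simp only [map_sub, map_one, map_div₀]

theorem cj2 (x : ℂ) (hx : 0 < x.im) : 1 - 1 / cj x = cj (1 / (1 - x)) := by
  unfold cj
  simp only [map_sub, map_one, map_inv₀, one_div, inv_inv]

theorem cj3 (x : ℂ) (hx : 0 < x.im) : 1 / (1 - cj (1 - 1 / x)) = cj (1 / (1 - x)) := by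
  have n0 := ne0 x hx
  have n1 : (starRingEnd ℂ) x ≠ 0 := by simpa using n0
  have n2 : (1 - (starRingEnd ℂ) x) ≠ 0 := by
    intro h
    have := congrArg Complex.im h
    simp at this
    linarith
  have n3 : ((starRingEnd ℂ) x - 1) ≠ 0 := by
    intro h
    apply n2
    linear_combination -h
  unfold cj
  simp only [map_sub, map_one, map_div₀]
  have e1 : 1 - 1 / (starRingEnd ℂ) x = ((starRingEnd ℂ) x - 1) / (starRingEnd ℂ) x := by
    field_simp
  rw [e1]
  have e2 : 1 - 1 / (((starRingEnd ℂ) x - 1) / (starRingEnd ℂ) x) = 1 / (1 - (starRingEnd ℂ) x) := by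
    rw [one_div_div]
    field_simp
    ring
  rw [e2]

theorem cj4 (x : ℂ) (hx : 0 < x.im) : 1 - 1 / cj (1 - 1 / x) = cj x := by
  unfold cj
  simp only [map_sub, map_one, map_inv₀, one_div, inv_inv]
  ring

theorem vol_cj (x : ℂ) (hx : 0 < x.im) : tetVol (cj x) = tetVol x := by
  unfold tetVol
  rw [cj1 x hx, cj2 x hx, cj_arg x hx, cj_arg _ (im2 x hx), cj_arg _ (im1 x hx)]
  ring

theorem vol_cj' (x : ℂ) (hx : 0 < x.im) : tetVol (cj (1 - 1 / x)) = tetVol x := by
  unfold tetVol
  rw [cj3 x hx, cj4 x hx, cj_arg x hx, cj_arg _ (im2 x hx), cj_arg _ (im1 x hx)]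
  ring

theorem vol_sum (a b : ℂ) : ∑ t, tetVol (pull a b t) = 6 * tetVol a + 6 * tetVol b := by
  rw [Fintype.sum_prod_type]
  simp [pull]

theorem fillings : ∃ N : ℕ, ∀ n : ℕ, N ≤ n → ∃ V : ℝ,
    T12.FillingHasVolume x0 w1 w2 (6 * (n : ℤ) + 7) (-6 * (n : ℤ) - 1) V ∧
    T12.FillingHasVolume x0 w1 w2 (6 * (n : ℤ) - 1) (-6 * (n : ℤ) - 5) V := by
  obtain ⟨N, hN⟩ := solve
  refine ⟨N, fun n hn => ?_⟩
  obtain ⟨z, w, hz, hw, h1, h2⟩ := hN n hn
  have sa := log_sum z hz
  have sb := log_sum w hw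
  have z1 := im1 z hz
  have z2 := im2 z hz
  have w1' := im1 w hw
  have w2' := im2 w hw
  refine ⟨6 * tetVol z + 6 * tetVol w, ⟨pull z w, ?_, edge_eq z w hz hw h1, ?_, (vol_sum z w).symm⟩,
    ⟨pull (cj z) (cj (1 - 1 / w)), ?_, edge_eq _ _ (cj_im z hz) (cj_im _ w2') ?_, ?_, ?_⟩⟩
  · intro t
    unfold pull
    split_ifs
    · exact hz
    · exact hw
  · rw [hol1, hol2]
    push_cast
    linear_combination 6 * h2 + (6 * (n : ℂ) + 7) * (h1 - 2 * sa) +
      (-6 * (n : ℂ) - 1) * (3 * h1 - sa - 5 * sb)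
  · intro t
    unfold pull
    split_ifs
    · exact cj_im z hz
    · exact cj_im _ w2'
  · rw [cj1 z hz, cj3 w hw, cj4 w hw, cj_log z hz, cj_log _ z2, cj_log _ w1', cj_log w hw]
    have h3 := congrArg (starRingEnd ℂ) h1
    have sa' := congrArg (starRingEnd ℂ) sa
    have sb' := congrArg (starRingEnd ℂ) sb
    simp only [map_add, map_mul, Complex.conj_I, Complex.conj_ofReal, map_ofNat] at h3 sa' sb'
    linear_combination h3 - 2 * sa' - 2 * sb'
  · rw [hol1, hol2, cj1 z hz, cj2 z hz, cj3 w hw, cj4 w hw, cj_log z hz, cj_log _ z2, cj_log _ z1,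
      cj_log _ w1', cj_log w hw, cj_log _ w2']
    have h3 := congrArg (starRingEnd ℂ) h1
    have h4 := congrArg (starRingEnd ℂ) h2
    have sa' := congrArg (starRingEnd ℂ) sa
    have sb' := congrArg (starRingEnd ℂ) sb
    simp only [map_add, map_mul, map_sub, Complex.conj_I, Complex.conj_ofReal, map_ofNat,
      map_natCast, map_div₀] at h3 h4 sa' sb'
    push_cast
    linear_combination -6 * h4 + (36 * (n : ℂ) + 18) * (h3 - sa' - sb') +
      (6 * (n : ℂ) - 1) * (h3 - 2 * sb') + (-6 * (n : ℂ) - 5) * (3 * h3 - 5 * sa' - sb')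
  · rw [vol_sum, vol_cj z hz, vol_cj' w hw]

end Pool.Agent.TH634.Cusp
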